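import Pool.Agent.H37.CTN.Stmts

/-!
Row HQI: coset sums of `b` bound the order of `g y - y`
-/

set_option autoImplicit false

namespace Pool.CND

open Finset

/-- elements of `ram 1` other than `1` have `1 ≤ b` -/
theorem hqi_one_le (hINJ : S_INJ) {k L G : Type} [Field k] [Field L] [Algebra k L] [Group G]
    {P : Place k L} {ρ : G →* (L ≃ₐ[k] L)} (hρ : Function.Injective ρ) {x : G}
    (hx : x ∈ ram P ρ 1) (hx1 : x ≠ 1) : 1 ≤ P.b (ρ x) := by
  obtain ⟨h1, h2⟩ := hx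
  rcases h2 P.pi P.pi_ne P.ord_pi with h3 | h3
  · exact absurd (hρ (by rw [map_one]; exact hINJ k L P (ρ x) P.pi h1 P.pi_ne P.ord_pi h3)) hx1
  · unfold Place.b
    push_cast at h3
    linarith

theorem hqi_thm (hHER : S_HER) (hFXP : S_FXP) (hRST : S_RST) (hINJ : S_INJ) (hLO2 : S_LO2) :
    S_HQI := by
  classical
  intro p k L G _ _ _ _ _ _ P ρ N I g y hp hchar hρ hNI hI hnorm hg hgN hy hy0 hgy
  have hfixI : ∀ x ∈ I, Fixes P (ρ x) := fun x hx => (hI x hx).1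
  have hfixN : ∀ n ∈ N, Fixes P (ρ n) := fun n hn => hfixI n (hNI hn)
  obtain ⟨F, hF, Q, hQ⟩ := hFXP k L G P ρ N hρ hfixN
  have hN1 : ∀ n ∈ N, g * n * g⁻¹ ∈ N := hnorm g hg
  have hN2 : ∀ n ∈ N, g⁻¹ * n * g ∈ N := fun n hn => by
    have := hnorm g⁻¹ (I.inv_mem hg) n hn
    rwa [inv_inv] at this
  obtain ⟨γ, hγ, hγfix⟩ := hRST k L G P ρ N F Q g hF hQ hN1 hN2 (hfixI g hg)
  have hyF : y ∈ F := (hF y).2 hy
  let Y : F := ⟨y, hyF⟩
  have hY0 : Y ≠ 0 := fun h => hy0 (congrArg Subtype.val h)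
  have hYd : ((γ Y - Y : F) : L) = ρ g y - y := by
    show ((γ Y : F) : L) - (Y : L) = ρ g y - y
    rw [hγ]
  have hYne : γ Y - Y ≠ 0 := by
    intro h
    rw [h] at hYd
    apply hgy
    have h0 : ((0 : F) : L) = 0 := rfl
    rw [h0] at hYd
    exact (sub_eq_zero.1 hYd.symm)
  have hγ1 : γ ≠ 1 := by
    intro h
    apply hYne
    rw [h, AlgEquiv.one_apply, sub_self]
  have hher := hHER k L G P ρ N F Q g γ hρ hfixN hF hQ hgN (hfixI g hg) hγ hγfix hγ1
  have hNpos : (0 : ℤ) < Nat.card N := by exact_mod_cast Nat.card_pos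
  have hb1 : 1 ≤ Q.b γ := by
    have h1 : ∀ x ∈ (univ : Finset G).filter (fun x => x ∈ {x : G | g⁻¹ * x ∈ N}),
        (1 : ℤ) ≤ P.b (ρ x) := by
      intro x hx
      have hx' : g⁻¹ * x ∈ N := by simpa using hx
      have hxI : x ∈ I := by
        have := I.mul_mem hg (hNI hx')
        rwa [mul_inv_cancel_left] at this
      refine hqi_one_le hINJ hρ (hI x hxI) ?_
      rintro rfl
      rw [mul_one] at hx'
      exact hgN (by simpa using N.inv_mem hx')
    have h2 : (1 : ℤ) ≤ sm (fun x => P.b (ρ x)) {x | g⁻¹ * x ∈ N} := by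
      unfold sm
      have hgmem : g ∈ (univ : Finset G).filter (fun x => x ∈ {x : G | g⁻¹ * x ∈ N}) := by
        simp [N.one_mem]
      calc (1 : ℤ) ≤ P.b (ρ g) := h1 g hgmem
        _ ≤ _ := by
          convert Finset.single_le_sum (f := fun x => P.b (ρ x))
            (fun x hx => le_trans zero_le_one (h1 x hx)) hgmem
    rw [hher] at h2
    by_contra hcon
    rw [not_le] at hcon
    have : Q.b γ ≤ 0 := by linarith
    nlinarith
  have hpi : γ Q.pi ≠ Q.pi := fun h => hγ1 (hINJ k F Q γ Q.pi hγfix Q.pi_ne Q.ord_pi h)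
  have hlo := hLO2 p k F Q γ Q.pi (Q.b γ) hp hchar hγfix Q.pi_ne Q.ord_pi hb1 hpi
    (by unfold Place.b; ring) Y hY0
  have hmain : Q.ord Y + Q.b γ ≤ Q.ord (γ Y - Y) := by
    by_cases hd : (p : ℤ) ∣ Q.ord Y
    · rcases hlo.2 hd with h | h
      · exact absurd h hYne
      · linarith
    · exact (hlo.1 hd).2.ge
  have e1 := hQ Y hY0
  have e2 := hQ (γ Y - Y) hYne
  rw [hYd] at e2
  have e3 : ((Y : F) : L) = y := rfl
  rw [e3] at e1
  rw [hher, ← e1, ← e2]
  nlinarith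

end Pool.CND
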